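import Mathlib

/-!
# Induced saturation of the Boolean lattice `Q_4`: slope at most five

The conjectured formula `sat*(n, Q_k) = (2^(k-1) - 1) n - c_k` is false for `k = 4`: there are
`Q_4`-saturated families with `5 n + 4` members for all `n ≥ 12`.

If a family contains the empty set, the whole set, all points and all co-points, then it contains an
induced `Q_4` if and only if there are four elements whose six pairs are all traces of members.
The family below has seven special elements `0, ..., 6` (called hubs); it is invariant under the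
permutations of the other elements.
-/

set_option autoImplicit false

namespace Pool.Agent.Results.MP_a8c71c_co.SlopeFive

open Finset

/-- The family `F` of subsets of an `n`-element set contains an induced copy of the poset `P`. -/
def HasInducedCopy (P : Type) [PartialOrder P] {n : ℕ} (F : Finset (Finset (Fin n))) : Prop :=
  ∃ f : P → Finset (Fin n), Function.Injective f ∧ (∀ x, f x ∈ F) ∧ ∀ x y, x ≤ y ↔ f x ⊆ f y

/-- The family `F` is `P`-saturated: it contains no induced copy of `P`, but adding any further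
subset creates one. -/
def IsSaturated (P : Type) [PartialOrder P] {n : ℕ} (F : Finset (Finset (Fin n))) : Prop :=
  ¬ HasInducedCopy P F ∧ ∀ S : Finset (Fin n), S ∉ F → HasInducedCopy P (insert S F)

/-- The induced saturation number `sat*(n, P)`: the least size of a `P`-saturated family. -/
noncomputable def satStar (n : ℕ) (P : Type) [PartialOrder P] : ℕ :=
  sInf {s | ∃ F : Finset (Finset (Fin n)), IsSaturated P F ∧ F.card = s}

/-- The `k`-dimensional Boolean lattice: the subsets of a `k`-element set, ordered by inclusion. -/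
abbrev Q (k : ℕ) : Type := Finset (Fin k)

/-! ### The data -/

def CC : List ℕ := [3, 12, 18, 26, 72, 77, 84, 107, 109, 116, 122, 165, 173, 175, 181, 185, 187,
  188, 189, 190, 215, 219, 245]

def ST : List ℕ := [3, 4, 26]

def MK : List ℕ := [3, 5, 6, 9, 10, 12]

def bt (A a : ℕ) : ℕ := if A.testBit a then 1 else 0

def hm (A a b c d : ℕ) : ℕ := bt A a + 2 * bt A b + 4 * bt A c + 8 * bt A d

def real (a b c d I : ℕ) : Bool :=
  CC.any (fun A => hm A a b c d == I) ||
  ST.any (fun A => hm A a b c d == I || (a == 7 && hm A a b c d + 1 == I) ||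
    (b == 7 && hm A a b c d + 2 == I) || (c == 7 && hm A a b c d + 4 == I) ||
    (d == 7 && hm A a b c d + 8 == I))

theorem free_check : ((List.range 8).all fun a => (List.range 8).all fun b =>
    (List.range 8).all fun c => (List.range 8).all fun d =>
      !(MK.all fun I => real a b c d I)) = true := by
  decide +kernel

/-- the value of the label `a`: hub `a` for `a < 7`, and two further elements with the codes 7, 8 -/
def vl (A : ℕ) (bu bv : Bool) (a : ℕ) : Bool :=
  if a < 7 then A.testBit a else if a = 7 then bu else bv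

def b2 (b : Bool) : ℕ := if b then 1 else 0

def msk (A : ℕ) (bu bv : Bool) (s : ℕ × ℕ × ℕ × ℕ) : ℕ :=
  b2 (vl A bu bv s.1) + 2 * b2 (vl A bu bv s.2.1) + 4 * b2 (vl A bu bv s.2.2.1) +
    8 * b2 (vl A bu bv s.2.2.2)

def chk (A : ℕ) (bu bv : Bool) (s : ℕ × ℕ × ℕ × ℕ) : Bool :=
  (s.1 < s.2.1 && s.2.1 < s.2.2.1 && s.2.2.1 < s.2.2.2 && s.2.2.2 < 9) &&
  MK.contains (msk A bu bv s) &&
  MK.all fun K => K == msk A bu bv s ||
    real (min s.1 7) (min s.2.1 7) (min s.2.2.1 7) (min s.2.2.2 7) K

def T10 : List (ℕ × ℕ × ℕ × ℕ) := [(0, 1, 2, 8), (0, 1, 5, 7), (0, 1, 6, 7), (2, 3, 5, 7),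
  (3, 5, 6, 8), (0, 2, 3, 8), (3, 4, 5, 7), (0, 2, 4, 8), (0, 1, 3, 7), (1, 4, 5, 7),
  (2, 4, 5, 7), (1, 2, 5, 8), (2, 5, 6, 8), (0, 1, 5, 6), (0, 2, 3, 6), (0, 2, 5, 7),
  (1, 2, 4, 8), (1, 3, 4, 8), (1, 4, 6, 7)]

def T11 : List (ℕ × ℕ × ℕ × ℕ) := [(0, 2, 7, 8), (0, 1, 5, 7), (0, 3, 7, 8), (2, 3, 7, 8),
  (3, 4, 5, 7), (0, 2, 4, 5), (1, 2, 3, 4), (2, 4, 5, 6), (2, 4, 5, 7), (0, 1, 6, 7),
  (1, 4, 6, 7), (0, 1, 2, 5), (0, 1, 2, 6), (0, 3, 5, 6), (1, 3, 5, 6)]

def T00 : List (ℕ × ℕ × ℕ × ℕ) := [(1, 2, 7, 8), (0, 2, 4, 7), (1, 3, 4, 7), (0, 2, 3, 7),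
  (3, 5, 6, 7), (1, 2, 3, 5), (0, 1, 2, 6), (0, 1, 5, 6), (0, 2, 4, 6), (0, 3, 5, 6),
  (0, 1, 3, 4), (1, 2, 4, 6), (1, 4, 5, 6), (2, 5, 6, 7), (0, 2, 3, 5), (0, 3, 4, 5),
  (2, 3, 4, 5), (2, 3, 5, 6), (2, 4, 5, 6)]

theorem check10 : ((List.range 128).all fun A =>
    [0, 3, 4, 26, 127].contains A || T10.any fun s => chk A true false s) = true := by
  decide +kernel

/-- hub sets of size at least `6` (of `7`) -/
def big : List ℕ := [127, 126, 125, 123, 119, 111, 95, 63]

/-- hub sets of size at most `1` -/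
def small : List ℕ := [0, 1, 2, 4, 8, 16, 32, 64]

theorem check11 : ((List.range 128).all fun A =>
    big.contains A || CC.contains (A + 128) || T11.any fun s => chk A true true s) = true := by
  decide +kernel

theorem check00 : ((List.range 128).all fun A =>
    small.contains A || CC.contains A || T00.any fun s => chk A false false s) = true := by
  decide +kernel

theorem check11' : ([0, 3, 4, 26].all fun A => T11.any fun s => chk A true true s) = true := by
  decide +kernel

theorem check00' : (T00.any fun s => chk 127 false false s) = true := by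
  decide +kernel

/-! ### The family -/

variable {n : ℕ}

/-- hubs keep their number, all other elements get the number `7` -/
def sg (i : Fin n) : ℕ := min i.val 7

/-- the set with code `A`: the hubs which are bits of `A`, and all other elements if bit `7` is set -/
def st (A : ℕ) : Finset (Fin n) := univ.filter (fun i => A.testBit (sg i) = true)

/-- the elements which are not hubs -/
def JJ (n : ℕ) : Finset (Fin n) := univ.filter (fun i => 7 ≤ i.val)

/-- the saturated family -/
def F0 (n : ℕ) : Finset (Finset (Fin n)) :=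
  {∅, univ} ∪ univ.image (fun i => {i}) ∪ univ.image (fun i => {i}ᶜ) ∪ CC.toFinset.image st ∪
    (ST.toFinset ×ˢ JJ n).image (fun p => insert p.2 (st p.1))

lemma mem_F0 (X : Finset (Fin n)) : X ∈ F0 n ↔ X = ∅ ∨ X = univ ∨ (∃ i, X = {i}) ∨
    (∃ i, X = {i}ᶜ) ∨ (∃ A ∈ CC, X = st A) ∨
    (∃ A ∈ ST, ∃ x : Fin n, 7 ≤ x.val ∧ X = insert x (st A)) := by
  simp only [F0, mem_union, mem_insert, mem_singleton, mem_image, mem_univ, true_and,
    List.mem_toFinset, mem_product, Prod.exists, JJ, mem_filter]
  constructor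
  · rintro (((((h | h) | ⟨i, h⟩) | ⟨i, h⟩) | ⟨A, hA, h⟩) | ⟨A, x, ⟨hA, hx⟩, h⟩)
    · exact Or.inl h
    · exact Or.inr (Or.inl h)
    · exact Or.inr (Or.inr (Or.inl ⟨i, h.symm⟩))
    · exact Or.inr (Or.inr (Or.inr (Or.inl ⟨i, h.symm⟩)))
    · exact Or.inr (Or.inr (Or.inr (Or.inr (Or.inl ⟨A, hA, h.symm⟩))))
    · exact Or.inr (Or.inr (Or.inr (Or.inr (Or.inr ⟨A, hA, x, hx, h.symm⟩))))
  · rintro (h | h | ⟨i, h⟩ | ⟨i, h⟩ | ⟨A, hA, h⟩ | ⟨A, hA, x, hx, h⟩)
    · exact Or.inl (Or.inl (Or.inl (Or.inl (Or.inl h))))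
    · exact Or.inl (Or.inl (Or.inl (Or.inl (Or.inr h))))
    · exact Or.inl (Or.inl (Or.inl (Or.inr ⟨i, h.symm⟩)))
    · exact Or.inl (Or.inl (Or.inr ⟨i, h.symm⟩))
    · exact Or.inl (Or.inr ⟨A, hA, h.symm⟩)
    · exact Or.inr ⟨A, x, ⟨hA, hx⟩, h.symm⟩

/-! ### Traces -/

/-- the trace of `X` on the quadruple `w`, as a number below `16` -/
def tm (w : Fin 4 → Fin n) (X : Finset (Fin n)) : ℕ :=
  (if w 0 ∈ X then 1 else 0) + 2 * (if w 1 ∈ X then 1 else 0) +
    4 * (if w 2 ∈ X then 1 else 0) + 8 * (if w 3 ∈ X then 1 else 0)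

lemma ite_st (A : ℕ) (y : Fin n) :
    (if y ∈ (st A : Finset (Fin n)) then 1 else 0) = bt A (sg y) := by
  simp [st, bt]

lemma tm_st (w : Fin 4 → Fin n) (A : ℕ) :
    tm w (st A) = hm A (sg (w 0)) (sg (w 1)) (sg (w 2)) (sg (w 3)) := by
  simp only [tm, hm, ite_st]

lemma sg_of_le {x : Fin n} (hx : 7 ≤ x.val) : sg x = 7 := by unfold sg; omega

lemma tm_star (w : Fin 4 → Fin n) (A : ℕ) (hA : A.testBit 7 = false) (x : Fin n)
    (hx : 7 ≤ x.val) :
    tm w (insert x (st A)) = hm A (sg (w 0)) (sg (w 1)) (sg (w 2)) (sg (w 3)) +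
      ((if w 0 = x then 1 else 0) + 2 * (if w 1 = x then 1 else 0) +
        4 * (if w 2 = x then 1 else 0) + 8 * (if w 3 = x then 1 else 0)) := by
  have key : ∀ y : Fin n, (if y ∈ insert x (st A : Finset (Fin n)) then 1 else 0) =
      bt A (sg y) + (if y = x then 1 else 0) := by
    intro y
    by_cases h : y = x
    · subst h
      rw [if_pos (mem_insert_self _ _), if_pos rfl, sg_of_le hx]
      simp [bt, hA]
    · simp [h, mem_insert, st, bt]
  simp only [tm, key, hm]
  ring

lemma ST_bit : ∀ A ∈ ST, A.testBit 7 = false := by decide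

lemma tm_eq_iff (w : Fin 4 → Fin n) (X : Finset (Fin n)) (I : Finset (Fin 4))
    (h : ∀ i, w i ∈ X ↔ i ∈ I) :
    tm w X = (if (0 : Fin 4) ∈ I then 1 else 0) + 2 * (if (1 : Fin 4) ∈ I then 1 else 0) +
      4 * (if (2 : Fin 4) ∈ I then 1 else 0) + 8 * (if (3 : Fin 4) ∈ I then 1 else 0) := by
  simp only [tm, h]

/-- from an induced copy of `Q_4` to a quadruple with all traces -/
lemma exists_quad {F : Finset (Finset (Fin n))} (h : HasInducedCopy (Q 4) F) :
    ∃ w : Fin 4 → Fin n, Function.Injective w ∧
      ∀ I : Finset (Fin 4), ∃ X ∈ F, ∀ i, w i ∈ X ↔ i ∈ I := by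
  obtain ⟨f, -, hF, hf⟩ := h
  have h1 : ∀ i : Fin 4, ∃ y, y ∈ f {i} ∧ y ∉ f ({i}ᶜ) := by
    intro i
    by_contra hcon
    push Not at hcon
    have h2 : f {i} ⊆ f ({i}ᶜ) := fun y hy => hcon y hy
    rw [← hf] at h2
    have h3 : i ∈ ({i}ᶜ : Finset (Fin 4)) := h2 (mem_singleton_self i)
    simp at h3
  choose w hw1 hw2 using h1
  have h4 : ∀ I : Finset (Fin 4), ∀ i, w i ∈ f I ↔ i ∈ I := by
    intro I i
    constructor
    · intro hi
      by_contra hcon
      have h5 : I ≤ ({i}ᶜ : Finset (Fin 4)) := by
        intro j hj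
        simp only [mem_compl, mem_singleton]
        rintro rfl
        exact hcon hj
      rw [hf] at h5
      exact hw2 i (h5 hi)
    · intro hi
      have h5 : ({i} : Finset (Fin 4)) ≤ I := by
        intro j hj
        rw [mem_singleton] at hj
        rwa [hj]
      rw [hf] at h5
      exact h5 (hw1 i)
  refine ⟨w, ?_, fun I => ⟨f I, hF I, h4 I⟩⟩
  intro i j hij
  have h5 := (h4 {i} i).2 (mem_singleton_self i)
  rw [hij, h4, mem_singleton] at h5
  exact h5.symm

/-- from a quadruple with all six pairs as traces to an induced copy of `Q_4` -/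
lemma hasCopy_of_quad {F : Finset (Finset (Fin n))} (h0 : ∅ ∈ F) (h1 : univ ∈ F)
    (h2 : ∀ i, {i} ∈ F) (h3 : ∀ i, {i}ᶜ ∈ F) (w : Fin 4 → Fin n) (hw : Function.Injective w)
    (h4 : ∀ I : Finset (Fin 4), I.card = 2 → ∃ X ∈ F, ∀ i, w i ∈ X ↔ i ∈ I) :
    HasInducedCopy (Q 4) F := by
  classical
  choose! g hg1 hg2 using h4
  set low : Finset (Fin 4) → Finset (Fin n) := fun I => I.image w with hlow
  set high : Finset (Fin 4) → Finset (Fin n) := fun I => (Iᶜ.image w)ᶜ with hhigh
  set f : Finset (Fin 4) → Finset (Fin n) := fun I =>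
    if I.card ≤ 1 then low I else if I.card = 2 then g I else high I with hf
  have tlow : ∀ I i, w i ∈ low I ↔ i ∈ I := by
    intro I i
    simp only [hlow, mem_image]
    constructor
    · rintro ⟨j, hj, hji⟩
      rwa [← hw hji]
    · intro hi
      exact ⟨i, hi, rfl⟩
  have thigh : ∀ I i, w i ∈ high I ↔ i ∈ I := by
    intro I i
    have := tlow Iᶜ i
    simp only [hlow] at this
    simp only [hhigh, mem_compl]
    rw [this, mem_compl, not_not]
  have tf : ∀ I i, w i ∈ f I ↔ i ∈ I := by
    intro I i
    simp only [hf]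
    split_ifs with ha hb
    · exact tlow I i
    · exact hg2 I hb i
    · exact thigh I i
  have sand : ∀ (X : Finset (Fin n)) (I : Finset (Fin 4)), (∀ i, w i ∈ X ↔ i ∈ I) →
      low I ⊆ X ∧ X ⊆ high I := by
    intro X I hX
    constructor
    · intro y hy
      simp only [hlow, mem_image] at hy
      obtain ⟨i, hi, rfl⟩ := hy
      exact (hX i).2 hi
    · intro y hy
      simp only [hhigh, mem_compl, mem_image, not_exists, not_and]
      rintro i hi rfl
      exact hi ((hX i).1 hy)
  have mlow : ∀ I I' : Finset (Fin 4), I ⊆ I' → low I ⊆ low I' := by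
    intro I I' h
    exact image_subset_image h
  have mhigh : ∀ I I' : Finset (Fin 4), I ⊆ I' → high I ⊆ high I' := by
    intro I I' h
    exact compl_subset_compl.2 (image_subset_image (compl_subset_compl.2 h))
  have mono : ∀ I I' : Finset (Fin 4), I ⊆ I' → f I ⊆ f I' := by
    intro I I' h
    rcases eq_or_ne I I' with h' | h'
    · rw [h']
    · have hc : I.card < I'.card := card_lt_card (h.ssubset_of_ne h')
      by_cases ha : I.card ≤ 1
      · have e : f I = low I := by simp only [hf, if_pos ha]
        rw [e]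
        exact (mlow I I' h).trans (sand (f I') I' (tf I')).1
      · by_cases hb : I'.card ≤ 2
        · omega
        · have e : f I' = high I' := by
            simp only [hf]
            rw [if_neg (by omega), if_neg (by omega)]
          rw [e]
          exact (sand (f I) I (tf I)).2.trans (mhigh I I' h)
  have hinj : ∀ I I', f I ⊆ f I' → I ⊆ I' := by
    intro I I' h i hi
    exact (tf I' i).1 (h ((tf I i).2 hi))
  refine ⟨f, ?_, ?_, ?_⟩
  · intro I I' h
    exact Subset.antisymm (hinj I I' h.subset) (hinj I' I h.symm.subset)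
  · intro I
    simp only [hf]
    split_ifs with ha hb
    · rcases Nat.lt_or_ge I.card 1 with hc | hc
      · have : I = ∅ := card_eq_zero.1 (by omega)
        simp only [hlow, this, image_empty]
        exact h0
      · obtain ⟨i, hi⟩ := card_eq_one.1 (show I.card = 1 by omega)
        simp only [hlow, hi, image_singleton]
        exact h2 _
    · exact hg1 I hb
    · have hcc : Iᶜ.card ≤ 1 := by
        rw [card_compl, Fintype.card_fin]
        omega
      rcases Nat.lt_or_ge Iᶜ.card 1 with hc | hc
      · have : Iᶜ = ∅ := card_eq_zero.1 (by omega)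
        simp only [hhigh, this, image_empty, compl_empty]
        exact h1
      · obtain ⟨i, hi⟩ := card_eq_one.1 (show Iᶜ.card = 1 by omega)
        simp only [hhigh, hi, image_singleton]
        exact h3 _
  · intro I I'
    exact ⟨mono I I', hinj I I'⟩

/-- the six pairs, as numbers -/
lemma mask_of_pair : ∀ I : Finset (Fin 4), I.card = 2 →
    (if (0 : Fin 4) ∈ I then 1 else 0) + 2 * (if (1 : Fin 4) ∈ I then 1 else 0) +
      4 * (if (2 : Fin 4) ∈ I then 1 else 0) + 8 * (if (3 : Fin 4) ∈ I then 1 else 0) ∈ MK := by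
  decide

lemma pair_of_mask : ∀ K ∈ MK, ∃ I : Finset (Fin 4),
    (if (0 : Fin 4) ∈ I then 1 else 0) + 2 * (if (1 : Fin 4) ∈ I then 1 else 0) +
      4 * (if (2 : Fin 4) ∈ I then 1 else 0) + 8 * (if (3 : Fin 4) ∈ I then 1 else 0) = K := by
  decide

lemma trace_of_mask (w : Fin 4 → Fin n) (X : Finset (Fin n)) (I : Finset (Fin 4))
    (h : tm w X = (if (0 : Fin 4) ∈ I then 1 else 0) + 2 * (if (1 : Fin 4) ∈ I then 1 else 0) +
      4 * (if (2 : Fin 4) ∈ I then 1 else 0) + 8 * (if (3 : Fin 4) ∈ I then 1 else 0)) :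
    ∀ i, w i ∈ X ↔ i ∈ I := by
  have e : ∀ (p q : Prop) [Decidable p] [Decidable q],
      ((if p then 1 else 0 : ℕ) = if q then 1 else 0) → (p ↔ q) := by
    intro p q _ _ hpq
    by_cases hp : p <;> by_cases hq : q <;> simp_all
  have b : ∀ (p : Prop) [Decidable p], (if p then 1 else 0 : ℕ) ≤ 1 := by
    intro p _
    split_ifs <;> omega
  unfold tm at h
  have a0 := b (w 0 ∈ X)
  have a1 := b (w 1 ∈ X)
  have a2 := b (w 2 ∈ X)
  have a3 := b (w 3 ∈ X)
  have c0 := b ((0 : Fin 4) ∈ I)
  have c1 := b ((1 : Fin 4) ∈ I)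
  have c2 := b ((2 : Fin 4) ∈ I)
  have c3 := b ((3 : Fin 4) ∈ I)
  have h0 : w 0 ∈ X ↔ (0 : Fin 4) ∈ I := e _ _ (by omega)
  have h1 : w 1 ∈ X ↔ (1 : Fin 4) ∈ I := e _ _ (by omega)
  have h2 : w 2 ∈ X ↔ (2 : Fin 4) ∈ I := e _ _ (by omega)
  have h3 : w 3 ∈ X ↔ (3 : Fin 4) ∈ I := e _ _ (by omega)
  intro i
  fin_cases i
  · exact h0
  · exact h1
  · exact h2
  · exact h3

/-! ### The family contains no `Q_4` -/

lemma free (w : Fin 4 → Fin n) (hw : Function.Injective w) :
    ∃ K ∈ MK, ∀ X ∈ F0 n, tm w X ≠ K := by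
  have h := free_check
  rw [List.all_eq_true] at h
  have ha := h (sg (w 0)) (List.mem_range.2 (by unfold sg; omega))
  rw [List.all_eq_true] at ha
  have hb := ha (sg (w 1)) (List.mem_range.2 (by unfold sg; omega))
  rw [List.all_eq_true] at hb
  have hc := hb (sg (w 2)) (List.mem_range.2 (by unfold sg; omega))
  rw [List.all_eq_true] at hc
  have hd := hc (sg (w 3)) (List.mem_range.2 (by unfold sg; omega))
  rw [Bool.not_eq_true', ← Bool.not_eq_true, List.all_eq_true] at hd
  push Not at hd
  obtain ⟨K, hK, hreal⟩ := hd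
  refine ⟨K, hK, ?_⟩
  have n01 : w 0 ≠ w 1 := fun e => absurd (hw e) (by decide)
  have n02 : w 0 ≠ w 2 := fun e => absurd (hw e) (by decide)
  have n03 : w 0 ≠ w 3 := fun e => absurd (hw e) (by decide)
  have n12 : w 1 ≠ w 2 := fun e => absurd (hw e) (by decide)
  have n13 : w 1 ≠ w 3 := fun e => absurd (hw e) (by decide)
  have n23 : w 2 ≠ w 3 := fun e => absurd (hw e) (by decide)
  have hMK : K = 3 ∨ K = 5 ∨ K = 6 ∨ K = 9 ∨ K = 10 ∨ K = 12 := by
    simpa [MK] using hK
  rw [ne_eq, Bool.not_eq_true, real, Bool.or_eq_false_iff, List.any_eq_false, List.any_eq_false] at hreal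
  obtain ⟨hr1, hr2⟩ := hreal
  intro X hX hXK
  rw [mem_F0] at hX
  rcases hX with h | h | ⟨i, h⟩ | ⟨i, h⟩ | ⟨A, hA, h⟩ | ⟨A, hA, x, hx, h⟩
  · subst h
    simp [tm] at hXK
    omega
  · subst h
    simp [tm] at hXK
    omega
  · subst h
    simp only [tm, mem_singleton] at hXK
    by_cases e0 : w 0 = i
    · subst e0
      rw [if_pos rfl, if_neg n01.symm, if_neg n02.symm, if_neg n03.symm] at hXK
      omega
    · rw [if_neg e0] at hXK
      by_cases e1 : w 1 = i
      · subst e1
        rw [if_pos rfl, if_neg n12.symm, if_neg n13.symm] at hXK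
        omega
      · rw [if_neg e1] at hXK
        by_cases e2 : w 2 = i
        · subst e2
          rw [if_pos rfl, if_neg n23.symm] at hXK
          omega
        · rw [if_neg e2] at hXK
          split_ifs at hXK <;> omega
  · subst h
    simp only [tm, mem_compl, mem_singleton] at hXK
    by_cases e0 : w 0 = i
    · subst e0
      rw [if_neg (not_not.2 rfl), if_pos n01.symm, if_pos n02.symm, if_pos n03.symm] at hXK
      omega
    · rw [if_pos e0] at hXK
      by_cases e1 : w 1 = i
      · subst e1
        rw [if_neg (not_not.2 rfl), if_pos n12.symm, if_pos n13.symm] at hXK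
        omega
      · rw [if_pos e1] at hXK
        by_cases e2 : w 2 = i
        · subst e2
          rw [if_neg (not_not.2 rfl), if_pos n23.symm] at hXK
          omega
        · rw [if_pos e2] at hXK
          split_ifs at hXK <;> omega
  · subst h
    rw [tm_st] at hXK
    exact hr1 A hA (by simpa using hXK)
  · subst h
    rw [tm_star w A (ST_bit A hA) x hx] at hXK
    have hr := hr2 A hA
    simp only [Bool.or_eq_true, Bool.and_eq_true, beq_iff_eq, not_or, not_and] at hr
    obtain ⟨⟨⟨⟨q, q0⟩, q1⟩, q2⟩, q3⟩ := hr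
    by_cases e0 : w 0 = x
    · subst e0
      rw [if_pos rfl, if_neg n01.symm, if_neg n02.symm, if_neg n03.symm] at hXK
      exact q0 (sg_of_le hx) (by omega)
    · rw [if_neg e0] at hXK
      by_cases e1 : w 1 = x
      · subst e1
        rw [if_pos rfl, if_neg n12.symm, if_neg n13.symm] at hXK
        exact q1 (sg_of_le hx) (by omega)
      · rw [if_neg e1] at hXK
        by_cases e2 : w 2 = x
        · subst e2
          rw [if_pos rfl, if_neg n23.symm] at hXK
          exact q2 (sg_of_le hx) (by omega)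
        · rw [if_neg e2] at hXK
          by_cases e3 : w 3 = x
          · subst e3
            rw [if_pos rfl] at hXK
            exact q3 (sg_of_le hx) (by omega)
          · rw [if_neg e3] at hXK
            exact q (by omega)

lemma not_hasCopy : ¬ HasInducedCopy (Q 4) (F0 n) := by
  intro h
  obtain ⟨w, hw, hI⟩ := exists_quad h
  obtain ⟨K, hK, hfree⟩ := free w hw
  obtain ⟨I, hIK⟩ := pair_of_mask K hK
  obtain ⟨X, hX, hXI⟩ := hI I
  exact hfree X hX ((tm_eq_iff w X I hXI).trans hIK)

/-! ### The family is saturated -/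

/-- realized traces are traces of members -/
lemma exists_of_real (hn : 12 ≤ n) (w : Fin 4 → Fin n) (hw : Function.Injective w) (K : ℕ)
    (h : real (sg (w 0)) (sg (w 1)) (sg (w 2)) (sg (w 3)) K = true) :
    ∃ X ∈ F0 n, tm w X = K := by
  have n01 : w 0 ≠ w 1 := fun e => absurd (hw e) (by decide)
  have n02 : w 0 ≠ w 2 := fun e => absurd (hw e) (by decide)
  have n03 : w 0 ≠ w 3 := fun e => absurd (hw e) (by decide)
  have n12 : w 1 ≠ w 2 := fun e => absurd (hw e) (by decide)
  have n13 : w 1 ≠ w 3 := fun e => absurd (hw e) (by decide)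
  have n23 : w 2 ≠ w 3 := fun e => absurd (hw e) (by decide)
  have hsg : ∀ y : Fin n, sg y = 7 → 7 ≤ y.val := by
    intro y hy
    unfold sg at hy
    omega
  rw [real, Bool.or_eq_true, List.any_eq_true, List.any_eq_true] at h
  rcases h with ⟨A, hA, h⟩ | ⟨A, hA, h⟩
  · refine ⟨st A, (mem_F0 _).2 (Or.inr (Or.inr (Or.inr (Or.inr (Or.inl ⟨A, hA, rfl⟩))))), ?_⟩
    rw [tm_st]
    simpa using h
  · have star : ∀ x : Fin n, 7 ≤ x.val → insert x (st A) ∈ F0 n := fun x hx =>
      (mem_F0 _).2 (Or.inr (Or.inr (Or.inr (Or.inr (Or.inr ⟨A, hA, x, hx, rfl⟩)))))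
    simp only [Bool.or_eq_true, Bool.and_eq_true, beq_iff_eq] at h
    rcases h with (((h | ⟨h7, h⟩) | ⟨h7, h⟩) | ⟨h7, h⟩) | ⟨h7, h⟩
    · -- a label outside the quadruple
      obtain ⟨x, hx, hxw⟩ : ∃ x : Fin n, 7 ≤ x.val ∧ ∀ i, w i ≠ x := by
        have hc : (univ.image w).card < (JJ n).card := by
          have h1 : (univ.image w).card ≤ 4 := by
            refine card_image_le.trans ?_
            simp
          have h2 : 5 ≤ (JJ n).card := by
            have h3 : (Finset.univ.image (fun j : Fin 5 => (⟨7 + j.val, by omega⟩ : Fin n))) ⊆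
                JJ n := by
              intro y hy
              simp only [mem_image, mem_univ, true_and] at hy
              obtain ⟨j, rfl⟩ := hy
              simp [JJ]
            have h4 := card_le_card h3
            rw [card_image_of_injective _ (by
              intro a b hab
              simp only [Fin.mk.injEq] at hab
              exact Fin.ext (by omega))] at h4
            simpa using h4
          omega
        obtain ⟨x, hx, hxn⟩ := exists_mem_notMem_of_card_lt_card hc
        refine ⟨x, by simpa [JJ] using hx, fun i hi => hxn ?_⟩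
        rw [← hi]
        exact mem_image_of_mem _ (mem_univ i)
      refine ⟨_, star x hx, ?_⟩
      rw [tm_star w A (ST_bit A hA) x hx, if_neg (hxw 0), if_neg (hxw 1), if_neg (hxw 2),
        if_neg (hxw 3)]
      omega
    · refine ⟨_, star (w 0) (hsg _ h7), ?_⟩
      rw [tm_star w A (ST_bit A hA) _ (hsg _ h7), if_pos rfl, if_neg n01.symm, if_neg n02.symm,
        if_neg n03.symm]
      omega
    · refine ⟨_, star (w 1) (hsg _ h7), ?_⟩
      rw [tm_star w A (ST_bit A hA) _ (hsg _ h7), if_pos rfl, if_neg n01, if_neg n12.symm,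
        if_neg n13.symm]
      omega
    · refine ⟨_, star (w 2) (hsg _ h7), ?_⟩
      rw [tm_star w A (ST_bit A hA) _ (hsg _ h7), if_pos rfl, if_neg n02, if_neg n12,
        if_neg n23.symm]
      omega
    · refine ⟨_, star (w 3) (hsg _ h7), ?_⟩
      rw [tm_star w A (ST_bit A hA) _ (hsg _ h7), if_pos rfl, if_neg n03, if_neg n13,
        if_neg n23]
      omega

/-- one entry of the table produces an induced copy of `Q_4` -/
lemma handle (hn : 12 ≤ n) (S : Finset (Fin n)) (A : ℕ)
    (hA : ∀ i : Fin n, i.val < 7 → (i ∈ S ↔ A.testBit i.val = true))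
    (u v : Fin n) (hu : 7 ≤ u.val) (hv : 7 ≤ v.val) (huv : u ≠ v) (bu bv : Bool)
    (hbu : u ∈ S ↔ bu = true) (hbv : v ∈ S ↔ bv = true) (s : ℕ × ℕ × ℕ × ℕ)
    (hs : chk A bu bv s = true) : HasInducedCopy (Q 4) (insert S (F0 n)) := by
  classical
  obtain ⟨s0, s1, s2, s3⟩ := s
  simp only [chk, Bool.and_eq_true, decide_eq_true_eq] at hs
  obtain ⟨⟨⟨⟨⟨l01, l12⟩, l23⟩, l39⟩, hmk⟩, hall⟩ := hs
  set dec : ℕ → Fin n := fun a => if h : a < 7 then ⟨a, by omega⟩ else if a = 7 then u else v
    with hdec
  have dsg : ∀ a, a < 9 → sg (dec a) = min a 7 := by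
    intro a ha
    simp only [hdec]
    split_ifs with h1 h2
    · simp [sg]
    · rw [sg_of_le hu]; omega
    · rw [sg_of_le hv]; omega
  have dS : ∀ a, a < 9 → (dec a ∈ S ↔ vl A bu bv a = true) := by
    intro a ha
    simp only [hdec, vl]
    split_ifs with h1 h2
    · exact hA _ h1
    · exact hbu
    · exact hbv
  have dinj : ∀ a b, a < b → b < 9 → dec a ≠ dec b := by
    intro a b hab hb
    simp only [hdec]
    split_ifs with h1 h2 h3 h4 h5 h6 h7 <;>
      first
        | omega
        | (intro h; rw [Fin.ext_iff] at h; simp only at h; omega)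
  set w : Fin 4 → Fin n := ![dec s0, dec s1, dec s2, dec s3] with hw
  have w0 : w 0 = dec s0 := rfl
  have w1 : w 1 = dec s1 := rfl
  have w2 : w 2 = dec s2 := rfl
  have w3 : w 3 = dec s3 := rfl
  have winj : Function.Injective w := by
    have e01 := dinj s0 s1 l01 (by omega)
    have e02 := dinj s0 s2 (by omega) (by omega)
    have e03 := dinj s0 s3 (by omega) (by omega)
    have e12 := dinj s1 s2 l12 (by omega)
    have e13 := dinj s1 s3 (by omega) (by omega)
    have e23 := dinj s2 s3 l23 (by omega)
    have key : ∀ i j : Fin 4, i < j → w i ≠ w j := by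
      intro i j hij
      fin_cases i <;> fin_cases j <;>
        first
          | exact e01
          | exact e02
          | exact e03
          | exact e12
          | exact e13
          | exact e23
          | (exfalso; revert hij; decide)
    intro i j hij
    rcases lt_trichotomy i j with h | h | h
    · exact absurd hij (key i j h)
    · exact h
    · exact absurd hij.symm (key j i h)
  have hb2 : ∀ a, a < 9 → (if dec a ∈ S then 1 else 0) = b2 (vl A bu bv a) := by
    intro a ha
    have h1 := dS a ha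
    unfold b2
    by_cases h2 : dec a ∈ S
    · rw [if_pos h2, if_pos (h1.1 h2)]
    · rw [if_neg h2, if_neg (fun h3 => h2 (h1.2 h3))]
  have tmS : tm w S = msk A bu bv (s0, s1, s2, s3) := by
    simp only [tm, msk, w0, w1, w2, w3]
    rw [hb2 s0 (by omega), hb2 s1 (by omega), hb2 s2 (by omega), hb2 s3 (by omega)]
  apply hasCopy_of_quad (mem_insert_of_mem ((mem_F0 _).2 (Or.inl rfl)))
    (mem_insert_of_mem ((mem_F0 _).2 (Or.inr (Or.inl rfl))))
    (fun i => mem_insert_of_mem ((mem_F0 _).2 (Or.inr (Or.inr (Or.inl ⟨i, rfl⟩)))))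
    (fun i => mem_insert_of_mem ((mem_F0 _).2 (Or.inr (Or.inr (Or.inr (Or.inl ⟨i, rfl⟩))))))
    w winj
  intro I hI
  have hK := mask_of_pair I hI
  rw [List.all_eq_true] at hall
  have hK2 := hall _ hK
  rw [Bool.or_eq_true, beq_iff_eq] at hK2
  rcases hK2 with hK2 | hK2
  · refine ⟨S, mem_insert_self _ _, trace_of_mask w S I ?_⟩
    rw [tmS, hK2]
  · have hr := hK2
    rw [← dsg s0 (by omega), ← dsg s1 (by omega), ← dsg s2 (by omega), ← dsg s3 (by omega)] at hr
    obtain ⟨X, hX, hXK⟩ := exists_of_real hn w winj _ hr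
    exact ⟨X, mem_insert_of_mem hX, trace_of_mask w X I hXK⟩

lemma exists_code (hn : 12 ≤ n) (S : Finset (Fin n)) :
    ∃ A < 128, ∀ i : Fin n, i.val < 7 → (i ∈ S ↔ A.testBit i.val = true) := by
  classical
  set b : Fin 7 → Bool := fun j => decide ((⟨j.val, by omega⟩ : Fin n) ∈ S) with hb
  refine ⟨Nat.ofBits b, Nat.ofBits_lt_two_pow b, ?_⟩
  intro i hi
  rw [Nat.testBit_ofBits_lt b i.val hi, hb]
  simp

lemma small_bits : ∀ A ∈ small, A = 0 ∨ ∃ p < 7, A = 2 ^ p := by decide

lemma big_bits : ∀ A ∈ big, (∀ q < 7, A.testBit q = true) ∨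
    ∃ p < 7, ∀ q < 7, (A.testBit q = true ↔ q ≠ p) := by decide

lemma bits128 : ∀ A < 128, (∀ q < 7, (A + 128).testBit q = A.testBit q) ∧
    (A + 128).testBit 7 = true ∧ A.testBit 7 = false := by decide +kernel

lemma saturated (hn : 12 ≤ n) (S : Finset (Fin n)) (hS : S ∉ F0 n) :
    HasInducedCopy (Q 4) (insert S (F0 n)) := by
  classical
  obtain ⟨A, hA128, hA⟩ := exists_code hn S
  obtain ⟨hA1, hA2, hA3⟩ := bits128 A hA128
  have hSF : ∀ X : Finset (Fin n), X ∈ F0 n → S ≠ X := by
    rintro X hX rfl
    exact hS hX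
  have sgl : ∀ i : Fin n, i.val < 7 → sg i = i.val := by
    intro i hi
    unfold sg
    omega
  by_cases hT : ∃ u : Fin n, 7 ≤ u.val ∧ u ∈ S
  · obtain ⟨u, hu, huS⟩ := hT
    by_cases hV : ∃ v : Fin n, 7 ≤ v.val ∧ v ∉ S
    · obtain ⟨v, hv, hvS⟩ := hV
      have huv : u ≠ v := by
        rintro rfl
        exact hvS huS
      have h := check10
      rw [List.all_eq_true] at h
      have hc := h A (List.mem_range.2 hA128)
      rw [Bool.or_eq_true, List.any_eq_true] at hc
      rcases hc with hc | ⟨s, -, hs⟩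
      · have hc' : A = 0 ∨ A = 3 ∨ A = 4 ∨ A = 26 ∨ A = 127 := by
          simpa using hc
        by_cases h127 : A = 127
        · by_cases hV2 : ∃ v' : Fin n, 7 ≤ v'.val ∧ v' ∉ S ∧ v' ≠ v
          · obtain ⟨v', hv', hvS', hne⟩ := hV2
            have h2 := check00'
            rw [List.any_eq_true] at h2
            obtain ⟨s, -, hs⟩ := h2
            rw [← h127] at hs
            exact handle hn S A hA v v' hv hv' hne.symm false false (by simpa using hvS)
              (by simpa using hvS') s hs
          · exfalso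
            push Not at hV2
            apply hSF ({v}ᶜ) ((mem_F0 _).2 (Or.inr (Or.inr (Or.inr (Or.inl ⟨v, rfl⟩)))))
            ext i
            rw [mem_compl, mem_singleton]
            rcases Nat.lt_or_ge i.val 7 with hi | hi
            · have h3 : ∀ q < 7, Nat.testBit 127 q = true := by decide
              have h4 : i ∈ S := by
                rw [hA i hi, h127]
                exact h3 _ hi
              simp only [h4, true_iff]
              rintro rfl
              omega
            · constructor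
              · rintro h5 rfl
                exact hvS h5
              · intro h5
                by_contra h6
                exact h5 (hV2 i hi h6)
        · have hc4 : A ∈ [0, 3, 4, 26] := by
            simp only [List.mem_cons, List.not_mem_nil, or_false]
            omega
          by_cases hU2 : ∃ u' : Fin n, 7 ≤ u'.val ∧ u' ∈ S ∧ u' ≠ u
          · obtain ⟨u', hu', huS', hne⟩ := hU2
            have h2 := check11'
            rw [List.all_eq_true] at h2
            have h3 := h2 A hc4
            rw [List.any_eq_true] at h3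
            obtain ⟨s, -, hs⟩ := h3
            exact handle hn S A hA u u' hu hu' hne.symm true true (by simpa using huS)
              (by simpa using huS') s hs
          · exfalso
            push Not at hU2
            have hSe : S = insert u (st A) := by
              ext i
              rw [mem_insert]
              simp only [st, mem_filter, mem_univ, true_and]
              rcases Nat.lt_or_ge i.val 7 with hi | hi
              · rw [sgl i hi, hA i hi]
                constructor
                · exact Or.inr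
                · rintro (rfl | h5)
                  · omega
                  · exact h5
              · rw [sg_of_le hi, hA3]
                constructor
                · intro h5
                  exact Or.inl (hU2 i hi h5)
                · rintro (rfl | h5)
                  · exact huS
                  · simp at h5
            rcases Nat.eq_zero_or_pos A with h0 | h0
            · apply hSF {u} ((mem_F0 _).2 (Or.inr (Or.inr (Or.inl ⟨u, rfl⟩))))
              rw [hSe, h0]
              ext i
              simp [st]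
            · refine hSF _ ((mem_F0 _).2 (Or.inr (Or.inr (Or.inr (Or.inr (Or.inr
                ⟨A, ?_, u, hu, rfl⟩)))))) hSe
              have : A = 3 ∨ A = 4 ∨ A = 26 := by omega
              rcases this with rfl | rfl | rfl <;> decide
      · exact handle hn S A hA u v hu hv huv true false (by simpa using huS)
          (by simpa using hvS) s hs
    · push Not at hV
      have h := check11
      rw [List.all_eq_true] at h
      have hc := h A (List.mem_range.2 hA128)
      rw [Bool.or_eq_true, Bool.or_eq_true, List.any_eq_true] at hc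
      rcases hc with (hc | hc) | ⟨s, -, hs⟩
      · exfalso
        have hc' : A ∈ big := by simpa using hc
        rcases big_bits A hc' with h1 | ⟨p, hp, h1⟩
        · apply hSF univ ((mem_F0 _).2 (Or.inr (Or.inl rfl)))
          ext i
          simp only [mem_univ, iff_true]
          rcases Nat.lt_or_ge i.val 7 with hi | hi
          · rw [hA i hi]
            exact h1 _ hi
          · exact hV i hi
        · apply hSF ({(⟨p, by omega⟩ : Fin n)}ᶜ)
            ((mem_F0 _).2 (Or.inr (Or.inr (Or.inr (Or.inl ⟨_, rfl⟩)))))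
          ext i
          rw [mem_compl, mem_singleton, Fin.ext_iff]
          rcases Nat.lt_or_ge i.val 7 with hi | hi
          · rw [hA i hi]
            exact h1 _ hi
          · simp only [hV i hi, true_iff]
            omega
      · exfalso
        have hc' : A + 128 ∈ CC := by simpa using hc
        refine hSF _ ((mem_F0 _).2 (Or.inr (Or.inr (Or.inr (Or.inr (Or.inl
          ⟨A + 128, hc', rfl⟩)))))) ?_
        ext i
        simp only [st, mem_filter, mem_univ, true_and]
        rcases Nat.lt_or_ge i.val 7 with hi | hi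
        · rw [sgl i hi, hA1 _ hi, hA i hi]
        · rw [sg_of_le hi]
          simp only [hV i hi, true_iff]
          exact hA2
      · exact handle hn S A hA ⟨7, by omega⟩ ⟨8, by omega⟩ (by simp) (by simp) (by simp) true true
          (by simpa using hV ⟨7, by omega⟩ (by simp)) (by simpa using hV ⟨8, by omega⟩ (by simp)) s hs
  · push Not at hT
    have h := check00
    rw [List.all_eq_true] at h
    have hc := h A (List.mem_range.2 hA128)
    rw [Bool.or_eq_true, Bool.or_eq_true, List.any_eq_true] at hc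
    have hSe : S = st A := by
      ext i
      simp only [st, mem_filter, mem_univ, true_and]
      rcases Nat.lt_or_ge i.val 7 with hi | hi
      · rw [sgl i hi, hA i hi]
      · rw [sg_of_le hi, hA3]
        simp [hT i hi]
    rcases hc with (hc | hc) | ⟨s, -, hs⟩
    · exfalso
      have hc' : A ∈ small := by simpa using hc
      rcases small_bits A hc' with h1 | ⟨p, hp, h1⟩
      · apply hSF ∅ ((mem_F0 _).2 (Or.inl rfl))
        rw [hSe, h1]
        ext i
        simp [st]
      · apply hSF {(⟨p, by omega⟩ : Fin n)} ((mem_F0 _).2 (Or.inr (Or.inr (Or.inl ⟨_, rfl⟩))))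
        rw [hSe, h1]
        ext i
        simp only [st, mem_filter, mem_univ, true_and, Nat.testBit_two_pow, decide_eq_true_eq,
          mem_singleton, Fin.ext_iff, sg]
        omega
    · exfalso
      have hc' : A ∈ CC := by simpa using hc
      exact hSF _ ((mem_F0 _).2 (Or.inr (Or.inr (Or.inr (Or.inr (Or.inl ⟨A, hc', rfl⟩)))))) hSe
    · exact handle hn S A hA ⟨7, by omega⟩ ⟨8, by omega⟩ (by simp) (by simp) (by simp) false false
        (by simpa using hT ⟨7, by omega⟩ (by simp)) (by simpa using hT ⟨8, by omega⟩ (by simp)) s hs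

/-! ### The size of the family -/

lemma card_JJ (hn : 12 ≤ n) : (JJ n).card ≤ n - 7 := by
  have h1 : (JJ n) ⊆ univ \ univ.image (fun j : Fin 7 => (⟨j.val, by omega⟩ : Fin n)) := by
    intro y hy
    simp only [JJ, mem_filter, mem_univ, true_and] at hy
    simp only [mem_sdiff, mem_univ, mem_image, true_and, not_exists]
    rintro j rfl
    simp only at hy
    omega
  refine (card_le_card h1).trans ?_
  rw [card_sdiff_of_subset (subset_univ _), card_image_of_injective _ (by
    intro a b hab
    simp only [Fin.mk.injEq] at hab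
    exact Fin.ext hab)]
  simp

lemma card_F0 (hn : 12 ≤ n) : (F0 n).card ≤ 5 * n + 4 := by
  have h1 : (({∅, univ} : Finset (Finset (Fin n)))).card ≤ 2 := card_le_two
  have h2 : ((univ : Finset (Fin n)).image (fun i => ({i} : Finset (Fin n)))).card ≤ n :=
    card_image_le.trans (by simp)
  have h3 : ((univ : Finset (Fin n)).image (fun i => ({i}ᶜ : Finset (Fin n)))).card ≤ n :=
    card_image_le.trans (by simp)
  have h4 : (CC.toFinset.image (st : ℕ → Finset (Fin n))).card ≤ 23 :=
    card_image_le.trans (by decide)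
  have h5 : ((ST.toFinset ×ˢ JJ n).image (fun p => insert p.2 (st p.1))).card ≤ 3 * (n - 7) := by
    refine card_image_le.trans ?_
    rw [card_product]
    have : ST.toFinset.card = 3 := by decide
    rw [this]
    exact Nat.mul_le_mul_left 3 (card_JJ hn)
  unfold F0
  refine (card_union_le _ _).trans ?_
  have h6 := card_union_le (({∅, univ} ∪ univ.image (fun i => {i}) ∪ univ.image (fun i => {i}ᶜ) :
    Finset (Finset (Fin n)))) (CC.toFinset.image st)
  have h7 := card_union_le (({∅, univ} ∪ univ.image (fun i => {i}) : Finset (Finset (Fin n))))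
    (univ.image (fun i => {i}ᶜ))
  have h8 := card_union_le (({∅, univ} : Finset (Finset (Fin n)))) (univ.image (fun i => {i}))
  omega

/-- For every `n ≥ 12` there is a `Q_4`-saturated family of at most `5 n + 4` subsets of an
`n`-element set. Hence `sat*(n, Q_4) ≤ 5 n + 4`, and the conjectured formula
`sat*(n, Q_k) = (2^(k-1) - 1) n - c_k` for all `k ≥ 3` and all large `n` is false. -/
theorem result :
    (∀ n : ℕ, 12 ≤ n → ∃ F : Finset (Finset (Fin n)), IsSaturated (Q 4) F ∧ F.card ≤ 5 * n + 4) ∧
    (∀ n : ℕ, 12 ≤ n → satStar n (Q 4) ≤ 5 * n + 4) ∧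
    ¬ ∀ k : ℕ, 3 ≤ k → ∃ c : ℝ, ∀ᶠ n : ℕ in Filter.atTop,
      (satStar n (Q k) : ℝ) = (2 ^ (k - 1) - 1) * (n : ℝ) - c := by
  have h1 : ∀ n : ℕ, 12 ≤ n →
      ∃ F : Finset (Finset (Fin n)), IsSaturated (Q 4) F ∧ F.card ≤ 5 * n + 4 :=
    fun n hn => ⟨F0 n, ⟨not_hasCopy, saturated hn⟩, card_F0 hn⟩
  have h2 : ∀ n : ℕ, 12 ≤ n → satStar n (Q 4) ≤ 5 * n + 4 := by
    intro n hn
    obtain ⟨F, hF, hc⟩ := h1 n hn
    have hmem : F.card ∈ {s | ∃ F : Finset (Finset (Fin n)), IsSaturated (Q 4) F ∧ F.card = s} :=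
      ⟨F, hF, rfl⟩
    exact (Nat.sInf_le hmem).trans hc
  refine ⟨h1, h2, ?_⟩
  intro h
  obtain ⟨c, hc⟩ := h 4 (by norm_num)
  obtain ⟨N, hN⟩ := Filter.eventually_atTop.1 hc
  obtain ⟨m, hm⟩ := exists_nat_gt c
  set n := max (max N 12) (m + 5) with hn
  have e1 := hN n (le_trans (le_max_left _ _) (le_max_left _ _))
  have e2 := h2 n (le_trans (le_max_right _ _) (le_max_left _ _))
  have e3 : (m + 5 : ℕ) ≤ n := le_max_right _ _
  have e2' : (satStar n (Q 4) : ℝ) ≤ 5 * n + 4 := by exact_mod_cast e2
  have e3' : (m : ℝ) + 5 ≤ n := by exact_mod_cast e3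
  rw [e1] at e2'
  norm_num at e2'
  linarith

end Pool.Agent.Results.MP_a8c71c_co.SlopeFive
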